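import Mathlib
import Pool.Agent.H59.L.S8.W695.KH.Defs

set_option autoImplicit false

namespace Pool.Agent.W597.KH

open MeasureTheory Set Filter Topology Pool.Agent.W695.KH
open scoped ENNReal InnerProductSpace Pointwise

/-- bounded continuous functions are integrable against the Gaussian density -/
theorem int_bdd (h : S_gauss) {κ : Type} [Fintype κ] {φ : Eu κ → ℝ} (hφ : Continuous φ) {B : ℝ}
    (hB : ∀ w, |φ w| ≤ B) : Integrable fun w => φ w * ga w := by
  obtain ⟨-, -, -, h4, -⟩ := h κ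
  have h0 : Integrable fun w : Eu κ => ga w := by simpa using h4 0
  exact h0.bdd_mul hφ.aestronglyMeasurable (Eventually.of_forall fun w => hB w)

theorem taylor {κ : Type} [Fintype κ] {v : Eu κ → ℝ} {L M : ℝ} (hM : 0 ≤ M) (hv : Sm v L M)
    (p q : Eu κ) : |v p - v q| ≤ ‖fderiv ℝ v q‖ * ‖p - q‖ + M * ‖p - q‖ ^ 2 := by
  have hd : ∀ x, DifferentiableAt ℝ v x := fun x =>
    (hv.diff.differentiable (by norm_num)).differentiableAt
  have h1 := (convex_closedBall q ‖p - q‖).norm_image_sub_le_of_norm_fderiv_le'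
    (f := v) (φ := fderiv ℝ v q) (C := M * ‖p - q‖) (x := q) (y := p)
    (fun x _ => hd x) (fun x hx => ?_) (Metric.mem_closedBall_self (norm_nonneg _)) ?_
  · have h2 : |v p - v q| ≤ ‖v p - v q - fderiv ℝ v q (p - q)‖ + ‖fderiv ℝ v q (p - q)‖ := by
      have := norm_add_le (v p - v q - fderiv ℝ v q (p - q)) (fderiv ℝ v q (p - q))
      rwa [sub_add_cancel] at this
    have h3 := (fderiv ℝ v q).le_opNorm (p - q)
    nlinarith
  · refine (hv.lip x q).trans (mul_le_mul_of_nonneg_left ?_ hM)
    rw [← dist_eq_norm]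
    exact hx
  · rw [Metric.mem_closedBall, dist_eq_norm]

theorem t_step (h : S_gauss) (hg : S_grad) : S_step := by
  intro κ _ σ L M v hσ hL hM hv T hT x
  obtain ⟨g1, g2, g3, g4, g5, -⟩ := h κ
  have hga : Integrable fun w : Eu κ => ga w := by simpa using g4 0
  have hTc : Continuous T := by
    have : LipschitzWith 1 T := LipschitzWith.of_dist_le_mul fun p q => by
      rw [NNReal.coe_one, one_mul, dist_eq_norm, dist_eq_norm]
      exact hT p q
    exact this.continuous
  have hvc : Continuous v := hv.diff.continuous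
  have hdc : Continuous (fderiv ℝ v) := hv.diff.continuous_fderiv (by norm_num)
  have hd : ∀ x, DifferentiableAt ℝ v x := fun x =>
    (hv.diff.differentiable (by norm_num)).differentiableAt
  have hlip : ∀ p q, |v p - v q| ≤ L * ‖p - q‖ := by
    intro p q
    exact convex_univ.norm_image_sub_le_of_norm_fderiv_le (f := v) (C := L) (x := q) (y := p)
      (fun x _ => hd x) (fun x _ => hv.grad x) (mem_univ _) (mem_univ _)
  have hF := (hg κ σ L (fun y => v (T y)) hσ hL (fun y => hv.bdd _) (fun p q =>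
    (hlip _ _).trans (mul_le_mul_of_nonneg_left (hT p q) hL))).1
  set F := Nn σ fun y => v (T y) with hFdef
  set g : Eu κ → ℝ := fun w => ‖fderiv ℝ v (T (x + σ • w))‖ with hgdef
  have hgc : Continuous g := by
    rw [hgdef]
    fun_prop
  have hgi : Integrable fun w => g w * ga w := int_bdd h hgc (B := L) fun w => by
    rw [hgdef, abs_of_nonneg (norm_nonneg _)]
    exact hv.grad _
  have hg2i : Integrable fun w => g w ^ 2 * ga w := int_bdd h (hgc.pow 2) (B := L ^ 2) fun w => by
    rw [abs_of_nonneg (sq_nonneg _)]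
    exact pow_le_pow_left₀ (norm_nonneg _) (hv.grad _) 2
  set m := ∫ w, g w * ga w with hm
  have hm0 : 0 ≤ m := integral_nonneg fun w => mul_nonneg (norm_nonneg _) (g1 w).le
  have hVi : ∀ p : Eu κ, Integrable fun w => v (T (p + σ • w)) * ga w := fun p =>
    int_bdd h (B := 1) (by fun_prop) fun w => hv.bdd _
  have hest : ∀ p, |F p - F x| ≤ m * ‖p - x‖ + M * ‖p - x‖ ^ 2 := by
    intro p
    have e1 : F p - F x = ∫ w, (v (T (p + σ • w)) * ga w - v (T (x + σ • w)) * ga w) := by
      rw [integral_sub (hVi p) (hVi x)]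
      rfl
    rw [e1]
    have e2 : ∫ w, (g w * ga w * ‖p - x‖ + M * ‖p - x‖ ^ 2 * ga w) =
        m * ‖p - x‖ + M * ‖p - x‖ ^ 2 := by
      rw [integral_add (hgi.mul_const _) (hga.const_mul _), integral_mul_const,
        integral_const_mul, g5, mul_one]
    rw [← e2, ← Real.norm_eq_abs]
    refine (norm_integral_le_integral_norm _).trans ?_
    refine integral_mono ((hVi p).sub (hVi x)).norm ((hgi.mul_const _).add (hga.const_mul _)) ?_
    intro w
    simp only [Pi.sub_apply, Pi.add_apply]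
    rw [← sub_mul, norm_mul, Real.norm_eq_abs, Real.norm_eq_abs, abs_of_pos (g1 w)]
    have e3 := taylor hM hv (T (p + σ • w)) (T (x + σ • w))
    have e4 : ‖T (p + σ • w) - T (x + σ • w)‖ ≤ ‖p - x‖ := by
      refine (hT _ _).trans (le_of_eq ?_)
      congr 1
      abel
    have e5 : ‖T (p + σ • w) - T (x + σ • w)‖ ^ 2 ≤ ‖p - x‖ ^ 2 :=
      pow_le_pow_left₀ (norm_nonneg _) e4 2
    have e6 : |v (T (p + σ • w)) - v (T (x + σ • w))| ≤ g w * ‖p - x‖ + M * ‖p - x‖ ^ 2 := by
      refine e3.trans (add_le_add ?_ ?_)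
      · exact mul_le_mul_of_nonneg_left e4 (norm_nonneg _)
      · exact mul_le_mul_of_nonneg_left e5 hM
    calc |v (T (p + σ • w)) - v (T (x + σ • w))| * ga w
        ≤ (g w * ‖p - x‖ + M * ‖p - x‖ ^ 2) * ga w := mul_le_mul_of_nonneg_right e6 (g1 w).le
      _ = _ := by ring
  have hFd : HasFDerivAt F (fderiv ℝ F x) x :=
    ((hF.differentiable (by norm_num)) x).hasFDerivAt
  have hle : ‖fderiv ℝ F x‖ ≤ m := by
    refine le_of_forall_pos_le_add fun ε hε => ?_
    refine hFd.le_of_lip' (by linarith) ?_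
    have hev : ∀ᶠ p in 𝓝 x, M * ‖p - x‖ < ε := by
      have hc : Continuous fun p : Eu κ => M * ‖p - x‖ := by fun_prop
      have : Tendsto (fun p : Eu κ => M * ‖p - x‖) (𝓝 x) (𝓝 0) := by
        have h0 := hc.tendsto x
        simpa using h0
      exact this.eventually_lt_const hε
    filter_upwards [hev] with p hp
    refine (hest p).trans ?_
    nlinarith [norm_nonneg (p - x)]
  have hjen : m ^ 2 ≤ ∫ w, g w ^ 2 * ga w := by
    have h0 : 0 ≤ ∫ w, (g w - m) ^ 2 * ga w :=
      integral_nonneg fun w => mul_nonneg (sq_nonneg _) (g1 w).le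
    have h1 : ∫ w, (g w - m) ^ 2 * ga w = (∫ w, g w ^ 2 * ga w) - m ^ 2 := by
      have e : ∀ w, (g w - m) ^ 2 * ga w = g w ^ 2 * ga w - 2 * m * (g w * ga w) + m ^ 2 * ga w := by
        intro w
        ring
      have hA : Integrable fun w => g w ^ 2 * ga w - 2 * m * (g w * ga w) :=
        hg2i.sub (hgi.const_mul _)
      simp_rw [e]
      rw [integral_add hA (hga.const_mul _),
        integral_sub hg2i (hgi.const_mul _), integral_const_mul, integral_const_mul, g5, ← hm]
      ring
    linarith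
  calc ‖fderiv ℝ F x‖ ^ 2 ≤ m ^ 2 := pow_le_pow_left₀ (norm_nonneg _) hle 2
    _ ≤ ∫ w, g w ^ 2 * ga w := hjen

end Pool.Agent.W597.KH
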